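import Pool.Agent.H.MP_b46d52_pr.D

namespace Pool.Agent.Results.MP_b46d52_pr.No

open Pool.Agent.H.MP_b46d52_pr Complex MeasureTheory

theorem result : (¬ HM fun x => gChernoff (Real.log x) / x) ∧
    ∀ g : ℝ → ℝ, Continuous g → Integrable g →
      (∀ l : ℝ, ∫ s : ℝ, cexp (I * l * s) * g s = ghat l) → g = gChernoff :=
  ⟨main1, main2⟩

end Pool.Agent.Results.MP_b46d52_pr.No
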